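import Pool.Agent.helper27.TD.Spec

set_option autoImplicit false

/-! MP_16912e_nt, row td:WFX (helper38): the number of discriminants with fixed `w`. -/

namespace Pool.Agent.helper27.TD

open Finset Pool.Agent.helper47.RA

theorem WFX_core (A : ℕ) (w : ℤ) (hw : w ≠ 0) (u : ℤ) (L : ℕ) (hL : L ≤ 2 * w.natAbs ^ 2 + 1)
    (T : Finset ℤ) (hT : ∀ D ∈ T, ∃ z : ℤ, 0 ≤ z ∧ z ^ 2 = D * w ^ 2 + 4 * A ∧ u < z ∧ z ≤ u + L ∧
      ∀ h : ℕ, (h : ℤ) ^ 2 ∣ w ^ 2 → (h : ℤ) ∣ 2 * z → h ≤ 4) :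
    (T.card : ℝ) ≤ 13 * (((w.natAbs ^ 2).divisors.card : ℕ) : ℝ) := by
  classical
  set M : ℕ := w.natAbs ^ 2 with hM
  have hMz : (M : ℤ) = w ^ 2 := by
    rw [hM]
    push_cast
    exact sq_abs w
  have hM0 : 0 < M := by
    rw [hM]
    have : w.natAbs ≠ 0 := Int.natAbs_ne_zero.2 hw
    positivity
  let φ : ℤ → ℤ := fun D => Int.sqrt (D * w ^ 2 + 4 * A)
  have hφ : ∀ D ∈ T, 0 ≤ φ D ∧ φ D ^ 2 = D * w ^ 2 + 4 * A ∧ u < φ D ∧ φ D ≤ u + L ∧
      ∀ h : ℕ, (h : ℤ) ^ 2 ∣ w ^ 2 → (h : ℤ) ∣ 2 * φ D → h ≤ 4 := by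
    intro D hD
    obtain ⟨z, hz0, hz, h1⟩ := hT D hD
    have h2 : φ D = z := by
      change Int.sqrt (D * w ^ 2 + 4 * A) = z
      rw [← hz, sq, Int.sqrt_eq]
      exact Int.natAbs_of_nonneg hz0
    rw [h2]
    exact ⟨hz0, hz, h1⟩
  have hinj : Set.InjOn φ (T : Set ℤ) := by
    intro D hD D' hD' h
    have h1 := (hφ D hD).2.1
    have h2 := (hφ D' hD').2.1
    rw [h] at h1
    have h3 : D * w ^ 2 = D' * w ^ 2 := by linarith
    exact mul_right_cancel₀ (pow_ne_zero 2 hw) h3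
  have hcard : (T.image φ).card = T.card := card_image_of_injOn hinj
  have h1 := card_roots_le M hM0 4 (4 * (A : ℤ)) u L (T.image φ)
    (by
      intro z hz
      obtain ⟨D, hD, rfl⟩ := mem_image.1 hz
      exact ⟨(hφ D hD).2.2.1, (hφ D hD).2.2.2.1⟩)
    (by
      intro z hz
      obtain ⟨D, hD, rfl⟩ := mem_image.1 hz
      rw [(hφ D hD).2.1, hMz]
      exact ⟨D, by ring⟩)
    (by
      intro z hz h hh hh2
      obtain ⟨D, hD, rfl⟩ := mem_image.1 hz
      refine (hφ D hD).2.2.2.2 h ?_ hh2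
      rw [← hMz]
      exact_mod_cast hh)
  rw [hcard] at h1
  refine h1.trans ?_
  rw [mul_comm (13 : ℝ)]
  apply mul_le_mul_of_nonneg_left _ (by positivity)
  have hMR : (1 : ℝ) ≤ M := by exact_mod_cast hM0
  have hLR : (L : ℝ) ≤ 2 * M + 1 := by exact_mod_cast hL
  have h2 : (L : ℝ) * (4 : ℕ) / M ≤ 12 := by
    rw [div_le_iff₀ (by linarith)]
    push_cast
    nlinarith
  linarith

theorem WFX_sqrt (X W : ℕ) (N z : ℤ) (hN : (X : ℤ) ^ 2 ≤ N) (hz0 : 0 ≤ z) (h1 : N ≤ z ^ 2)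
    (h2 : z ^ 2 ≤ N + X * W) (hX : 0 < X) :
    Int.sqrt N - 1 < z ∧ z ≤ (Int.sqrt N - 1) + ((2 * W + 1 : ℕ) : ℤ) := by
  have hN0 : 0 ≤ N := le_trans (by positivity) hN
  have hs0 : 0 ≤ Int.sqrt N := Int.sqrt_nonneg N
  have hs1 : Int.sqrt N * Int.sqrt N ≤ N := by
    have h3 := Nat.sqrt_le N.toNat
    have h4 : (N.toNat : ℤ) = N := Int.toNat_of_nonneg hN0
    unfold Int.sqrt
    rw [← h4]
    simp only [Int.toNat_natCast]
    exact_mod_cast h3
  have hs2 : N < (Int.sqrt N + 1) * (Int.sqrt N + 1) := by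
    have h3 := Nat.lt_succ_sqrt N.toNat
    have h4 : (N.toNat : ℤ) = N := Int.toNat_of_nonneg hN0
    unfold Int.sqrt
    rw [← h4]
    simp only [Int.toNat_natCast]
    exact_mod_cast h3
  have hXs : (X : ℤ) < Int.sqrt N + 1 := by
    by_contra h5
    push Not at h5
    nlinarith
  constructor
  · nlinarith
  · by_contra h5
    push Not at h5
    push_cast at h5
    have hW : (0 : ℤ) ≤ W := by positivity
    have hXz : (0 : ℤ) < X := by exact_mod_cast hX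
    have h6 : Int.sqrt N + 1 + W ≤ z ∧ (Int.sqrt N + 1 ≤ z) := by
      constructor <;> omega
    have h7 : (Int.sqrt N + 1 + W) * (Int.sqrt N + 1 + W) ≤ z * z :=
      mul_le_mul h6.1 h6.1 (by positivity) hz0
    have h8 : (X : ℤ) * W ≤ (Int.sqrt N + 1) * W := mul_le_mul_of_nonneg_right hXs.le hW
    nlinarith [mul_nonneg (by positivity : (0 : ℤ) ≤ Int.sqrt N + 1) hW, mul_nonneg hW hW]

theorem WFX : WFX_stmt := by
  classical
  refine ⟨26, by norm_num, ?_⟩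
  intro X A w hX hA hXA hw T hT
  set W : ℕ := w.natAbs ^ 2 with hWdef
  have hWz : (W : ℤ) = w ^ 2 := by
    rw [hWdef]
    push_cast
    exact sq_abs w
  have hW0 : 0 < W := by
    rw [hWdef]
    have : w.natAbs ≠ 0 := Int.natAbs_ne_zero.2 hw
    positivity
  have hXAz : (X : ℤ) ^ 2 ≤ A := by exact_mod_cast hXA
  have hXz : (0 : ℤ) < X := by exact_mod_cast hX
  have hAz : (0 : ℤ) < A := by exact_mod_cast hA
  have hWz0 : (0 : ℤ) < W := by exact_mod_cast hW0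
  -- nonnegative square root
  have hT' : ∀ D ∈ T, (X : ℤ) < |D| ∧ |D| ≤ 2 * X ∧ ∃ z : ℤ, 0 ≤ z ∧ z ^ 2 = D * w ^ 2 + 4 * A ∧
      ∀ h : ℕ, (h : ℤ) ^ 2 ∣ w ^ 2 → (h : ℤ) ∣ 2 * z → h ≤ 4 := by
    intro D hD
    obtain ⟨h1, h2, x, hx, hh⟩ := hT D hD
    refine ⟨h1, h2, |x|, abs_nonneg x, by rw [sq_abs]; exact hx, ?_⟩
    intro h hh1 hh2
    apply hh h hh1
    rcases abs_choice x with h3 | h3
    · rwa [h3] at hh2
    · rw [h3, mul_neg] at hh2
      exact (dvd_neg.1 hh2)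
  have hsplit : T = T.filter (fun D => 0 < D) ∪ T.filter (fun D => ¬ 0 < D) :=
    (filter_union_filter_not_eq _ T).symm
  have hpos : ((T.filter (fun D => 0 < D)).card : ℝ) ≤
      13 * (((w.natAbs ^ 2).divisors.card : ℕ) : ℝ) := by
    refine WFX_core A w hw (Int.sqrt (4 * A + X * W) - 1) (2 * W + 1) le_rfl _ ?_
    intro D hD
    obtain ⟨hD1, hD2⟩ := mem_filter.1 hD
    obtain ⟨h1, h2, z, hz0, hz, hh⟩ := hT' D hD1
    rw [abs_of_pos hD2] at h1 h2
    rw [← hWz] at hz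
    have e1 : (X : ℤ) * W ≤ D * W := mul_le_mul_of_nonneg_right h1.le hWz0.le
    have e2 : D * W ≤ 2 * X * W := mul_le_mul_of_nonneg_right h2 hWz0.le
    have e3 := WFX_sqrt X W (4 * A + X * W) z (by nlinarith) hz0 (by linarith) (by nlinarith) hX
    rw [hWz] at hz
    exact ⟨z, hz0, hz, e3.1, e3.2, hh⟩
  have hneg : ((T.filter (fun D => ¬ 0 < D)).card : ℝ) ≤
      13 * (((w.natAbs ^ 2).divisors.card : ℕ) : ℝ) := by
    rcases le_or_gt (2 * (X : ℤ) * W) (3 * A) with hc | hc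
    · refine WFX_core A w hw (Int.sqrt (4 * A - 2 * X * W) - 1) (2 * W + 1) le_rfl _ ?_
      intro D hD
      obtain ⟨hD1, hD2⟩ := mem_filter.1 hD
      obtain ⟨h1, h2, z, hz0, hz, hh⟩ := hT' D hD1
      rw [abs_of_nonpos (not_lt.1 hD2)] at h1 h2
      rw [← hWz] at hz
      have e1 : (X : ℤ) * W ≤ -D * W := mul_le_mul_of_nonneg_right h1.le hWz0.le
      have e2 : -D * W ≤ 2 * X * W := mul_le_mul_of_nonneg_right h2 hWz0.le
      have e3 := WFX_sqrt X W (4 * A - 2 * X * W) z (by linarith) hz0 (by linarith)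
        (by nlinarith) hX
      rw [hWz] at hz
      exact ⟨z, hz0, hz, e3.1, e3.2, hh⟩
    · refine WFX_core A w hw (-1) (2 * W + 1) le_rfl _ ?_
      intro D hD
      obtain ⟨hD1, hD2⟩ := mem_filter.1 hD
      obtain ⟨h1, h2, z, hz0, hz, hh⟩ := hT' D hD1
      rw [abs_of_nonpos (not_lt.1 hD2)] at h1 h2
      rw [← hWz] at hz
      have e1 : (X : ℤ) * W ≤ -D * W := mul_le_mul_of_nonneg_right h1.le hWz0.le
      have e4 : 3 * (X : ℤ) < 2 * W := by
        by_contra h5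
        push Not at h5
        nlinarith
      have e5 : z ≤ 2 * W := by
        by_contra h5
        push Not at h5
        have e6 : (X : ℤ) * W * 3 ≤ 2 * W * W := by nlinarith
        nlinarith
      rw [hWz] at hz
      refine ⟨z, hz0, hz, by linarith, ?_, hh⟩
      push_cast
      linarith
  have hcard : (T.card : ℝ) ≤ ((T.filter (fun D => 0 < D)).card : ℝ) +
      ((T.filter (fun D => ¬ 0 < D)).card : ℝ) := by
    have h1 : T.card ≤ (T.filter (fun D => 0 < D)).card + (T.filter (fun D => ¬ 0 < D)).card := by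
      conv_lhs => rw [hsplit]
      exact card_union_le _ _
    exact_mod_cast h1
  linarith

end Pool.Agent.helper27.TD
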