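import Pool.Agent.helper27.TD.Spec

set_option autoImplicit false

/-! MP_16912e_nt, row td:QD (helper38): divisibility by powers of q of the determinant. -/

namespace Pool.Agent.helper27.TD

open Finset

/-- binary forms of degree `N` in `(g, y)`, as functions -/
def QD_form (N : ℕ) (φ : ℤ → ℤ → ℤ) : Prop :=
  ∃ a : ℕ → ℤ, ∀ g y : ℤ, φ g y = ∑ i ∈ range (N + 1), a i * (g ^ (N - i) * y ^ i)

theorem QD_form_add {N : ℕ} {φ ψ : ℤ → ℤ → ℤ} (h : QD_form N φ) (h' : QD_form N ψ) :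
    QD_form N (fun g y => φ g y + ψ g y) := by
  obtain ⟨a, ha⟩ := h
  obtain ⟨b, hb⟩ := h'
  refine ⟨fun i => a i + b i, fun g y => ?_⟩
  simp only [ha, hb, add_mul, sum_add_distrib]

theorem QD_form_zero (N : ℕ) : QD_form N (fun _ _ => 0) :=
  ⟨fun _ => 0, fun g y => by simp⟩

theorem QD_form_sum {N : ℕ} {ι : Type} (s : Finset ι) (φ : ι → ℤ → ℤ → ℤ)
    (h : ∀ i ∈ s, QD_form N (φ i)) : QD_form N (fun g y => ∑ i ∈ s, φ i g y) := by
  classical
  induction s using Finset.induction_on with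
  | empty => simpa using QD_form_zero N
  | insert i s hi ih =>
    have h1 := QD_form_add (h i (mem_insert_self i s))
      (ih (fun k hk => h k (mem_insert_of_mem hk)))
    simpa [sum_insert hi] using h1

theorem QD_form_monom {N : ℕ} (a : ℤ) (i : ℕ) (hi : i ≤ N) :
    QD_form N (fun g y => a * (g ^ (N - i) * y ^ i)) := by
  refine ⟨fun k => if k = i then a else 0, fun g y => ?_⟩
  rw [sum_eq_single i]
  · simp
  · intro k _ hk
    simp [hk]
  · intro h
    exact absurd (mem_range.2 (by omega)) h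

theorem QD_form_mul {N M : ℕ} {φ ψ : ℤ → ℤ → ℤ} (h : QD_form N φ) (h' : QD_form M ψ) :
    QD_form (N + M) (fun g y => φ g y * ψ g y) := by
  obtain ⟨a, ha⟩ := h
  obtain ⟨b, hb⟩ := h'
  have key : (fun g y : ℤ => φ g y * ψ g y) = fun g y => ∑ i ∈ range (N + 1), ∑ k ∈ range (M + 1),
      (a i * b k) * (g ^ (N + M - (i + k)) * y ^ (i + k)) := by
    funext g y
    rw [ha, hb, sum_mul_sum]
    refine sum_congr rfl fun i hi => sum_congr rfl fun k hk => ?_
    have h1 := mem_range.1 hi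
    have h2 := mem_range.1 hk
    have h3 : N + M - (i + k) = (N - i) + (M - k) := by omega
    rw [h3, pow_add, pow_add]
    ring
  rw [key]
  refine QD_form_sum _ _ fun i hi => QD_form_sum _ _ fun k hk => ?_
  have h1 := mem_range.1 hi
  have h2 := mem_range.1 hk
  exact QD_form_monom _ _ (by omega)

theorem QD_form_one : QD_form 0 (fun _ _ => 1) :=
  ⟨fun _ => 1, fun g y => by simp⟩

theorem QD_form_pow {N : ℕ} {φ : ℤ → ℤ → ℤ} (h : QD_form N φ) (k : ℕ) :
    QD_form (k * N) (fun g y => φ g y ^ k) := by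
  induction k with
  | zero => simpa using QD_form_one
  | succ k ih =>
    have h1 := QD_form_mul ih h
    have h2 : (k + 1) * N = k * N + N := by ring
    rw [h2]
    simpa [pow_succ] using h1

theorem QD_form_lin (c e : ℤ) : QD_form 1 (fun g y => c * g + e * y) := by
  refine ⟨fun i => if i = 0 then c else e, fun g y => ?_⟩
  simp [sum_range_succ]

/-- the bracket -/
def QD_br (b : ℕ) (z c : ℤ) (i l m : ℕ) (g y : ℤ) : ℤ :=
  (g ^ 2 + z * (c * g + y) ^ 2) ^ (b - l) * (g ^ (1 - i) * (c * g + y) ^ i) *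
    (2 * g * (c * g + y)) ^ (l - m)

theorem QD_br_form (b : ℕ) (z c : ℤ) (i l m : ℕ) (hi : i ≤ 1) (hl : l ≤ b) (hm : m ≤ l) :
    QD_form (2 * b + 1 - 2 * m) (QD_br b z c i l m) := by
  have hL : QD_form 1 (fun g y => c * g + y) := by
    simpa using QD_form_lin c 1
  have hg : QD_form 1 (fun g _ => g) := by
    simpa using QD_form_lin 1 0
  have h2g : QD_form 1 (fun g _ => 2 * g) := by
    simpa using QD_form_lin 2 0
  have hzL : QD_form 1 (fun g y => z * (c * g + y)) := by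
    have := QD_form_lin (z * c) z
    have e : (fun g y : ℤ => z * c * g + z * y) = fun g y => z * (c * g + y) := by
      funext g y; ring
    rwa [e] at this
  have h1 : QD_form 2 (fun g y => g ^ 2 + z * (c * g + y) ^ 2) := by
    have a1 := QD_form_add (QD_form_mul hg hg) (QD_form_mul hzL hL)
    have e : (fun g y : ℤ => g * g + z * (c * g + y) * (c * g + y)) =
        fun g y => g ^ 2 + z * (c * g + y) ^ 2 := by
      funext g y; ring
    rwa [e] at a1
  have h2 : QD_form 2 (fun g y => 2 * g * (c * g + y)) := QD_form_mul h2g hL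
  have h3 := QD_form_mul (QD_form_mul (QD_form_pow h1 (b - l))
    (QD_form_mul (QD_form_pow hg (1 - i)) (QD_form_pow hL i))) (QD_form_pow h2 (l - m))
  have e : (b - l) * 2 + ((1 - i) * 1 + i * 1) + (l - m) * 2 = 2 * b + 1 - 2 * m := by omega
  rw [e] at h3
  exact h3

/-- sums over `mons b` -/
theorem QD_sum_mons (b : ℕ) (F : ℕ → ℕ → ℤ) : ∑ s ∈ mons b, F s.1 s.2 =
    ∑ m ∈ range (b + 1), ∑ i ∈ range (2 * b + 1 - 2 * m + 1), F m i := by
  unfold mons
  rw [sum_filter, sum_product]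
  refine sum_congr rfl fun m hm => ?_
  have h1 := mem_range.1 hm
  rw [← sum_filter]
  refine sum_congr ?_ fun _ _ => rfl
  ext i
  simp only [mem_filter, mem_range]
  omega

/-- the expansion of an entry -/
theorem QD_expand (b : ℕ) (z c g n u v y e : ℤ) (hn : n = c * g + y)
    (he : v * (g ^ 2 + z * n ^ 2) - 2 * u * g * n = e) (i l : ℕ) (hl : l ≤ b) :
    (g ^ 2 + z * n ^ 2) ^ b * (g ^ (1 - i) * n ^ i * (u ^ (b - l) * v ^ l)) =
      ∑ m ∈ range (b + 1), (l.choose m : ℤ) * e ^ m * u ^ (b - m) * QD_br b z c i l m g y := by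
  subst hn
  have h1 : (g ^ 2 + z * (c * g + y) ^ 2) ^ b =
      (g ^ 2 + z * (c * g + y) ^ 2) ^ (b - l) * (g ^ 2 + z * (c * g + y) ^ 2) ^ l := by
    rw [← pow_add]
    congr 1
    omega
  have h2 : (g ^ 2 + z * (c * g + y) ^ 2) * v = e + 2 * u * g * (c * g + y) := by
    rw [← he]; ring
  have h3 : (g ^ 2 + z * (c * g + y) ^ 2) ^ l * v ^ l =
      ∑ m ∈ range (l + 1), e ^ m * (2 * u * g * (c * g + y)) ^ (l - m) * (l.choose m : ℤ) := by
    rw [← mul_pow, h2, add_pow]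
  have h4 : ∑ m ∈ range (b + 1), (l.choose m : ℤ) * e ^ m * u ^ (b - m) * QD_br b z c i l m g y =
      ∑ m ∈ range (l + 1), (l.choose m : ℤ) * e ^ m * u ^ (b - m) * QD_br b z c i l m g y := by
    symm
    apply sum_subset
    · intro m hm
      have := mem_range.1 hm
      exact mem_range.2 (by omega)
    · intro m _ hm
      have h5 : l < m := by
        by_contra h6
        exact hm (mem_range.2 (by omega))
      simp [Nat.choose_eq_zero_of_lt h5]
  rw [h4, h1]
  calc (g ^ 2 + z * (c * g + y) ^ 2) ^ (b - l) * (g ^ 2 + z * (c * g + y) ^ 2) ^ l *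
        (g ^ (1 - i) * (c * g + y) ^ i * (u ^ (b - l) * v ^ l))
      = (g ^ 2 + z * (c * g + y) ^ 2) ^ (b - l) * (g ^ (1 - i) * (c * g + y) ^ i) * u ^ (b - l) *
        ((g ^ 2 + z * (c * g + y) ^ 2) ^ l * v ^ l) := by ring
    _ = _ := by
      rw [h3, mul_sum]
      refine sum_congr rfl fun m hm => ?_
      have h5 := mem_range.1 hm
      have h6 : u ^ (b - m) = u ^ (b - l) * u ^ (l - m) := by
        rw [← pow_add]
        congr 1
        omega
      have h7 : (2 * u * g * (c * g + y)) ^ (l - m) =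
          u ^ (l - m) * (2 * g * (c * g + y)) ^ (l - m) := by
        rw [← mul_pow]
        congr 1
        ring
      unfold QD_br
      rw [h6, h7]
      ring

theorem QD (h : DTD_stmt) (h' : WT_stmt) : QD_stmt := by
  intro b d j T q z e c hq hqz hqe P hP
  have hqp : Prime (q : ℤ) := Nat.prime_iff_prime_int.1 hq
  obtain ⟨e', he'⟩ := hqe
  choose hg hj hE using hP
  choose t ht using hj
  have hn : ∀ i, P i 1 = c * P i 0 + (q : ℤ) ^ j * t i := fun i => by
    have := ht i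
    linarith
  -- the coefficients
  have hco : ∀ i l m : ℕ, ∃ a : ℕ → ℤ, i ≤ 1 → l ≤ b → m ≤ l → ∀ g y : ℤ,
      QD_br b z c i l m g y =
        ∑ k ∈ range (2 * b + 1 - 2 * m + 1), a k * (g ^ (2 * b + 1 - 2 * m - k) * y ^ k) := by
    intro i l m
    by_cases hh : i ≤ 1 ∧ l ≤ b ∧ m ≤ l
    · obtain ⟨a, ha⟩ := QD_br_form b z c i l m hh.1 hh.2.1 hh.2.2
      exact ⟨a, fun _ _ _ => ha⟩
    · exact ⟨0, fun h1 h2 h3 => absurd ⟨h1, h2, h3⟩ hh⟩
  choose a ha using hco
  -- the two factors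
  let A : Matrix (Ix b) {s : ℕ × ℕ // s ∈ mons b} ℤ := Matrix.of fun i s =>
    P i 2 ^ (b - s.1.1) * (P i 0 ^ (2 * b + 1 - 2 * s.1.1 - s.1.2) * t i ^ s.1.2) * e' ^ s.1.1
  let B : Matrix {s : ℕ × ℕ // s ∈ mons b} (Ix b) ℤ := Matrix.of fun s x =>
    (q : ℤ) ^ (d * s.1.1 + j * s.1.2) *
      (((x.2 : ℕ).choose s.1.1 : ℤ) * a (x.1 : ℕ) (x.2 : ℕ) s.1.1 s.1.2)
  have hAB : A * B = Matrix.of fun i x => (P i 0 ^ 2 + z * P i 1 ^ 2) ^ b * mat b P i x := by
    ext i x
    rw [Matrix.mul_apply]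
    have hx1 : (x.1 : ℕ) ≤ 1 := by have := x.1.2; omega
    have hx2 : (x.2 : ℕ) ≤ b := by have := x.2.2; omega
    have e1 := QD_expand b z c (P i 0) (P i 1) (P i 2) (P i 3) ((q : ℤ) ^ j * t i) e (hn i) (hE i)
      (x.1 : ℕ) (x.2 : ℕ) hx2
    simp only [Matrix.of_apply, mat, mon]
    rw [e1]
    have e2 : ∑ s : {s : ℕ × ℕ // s ∈ mons b}, A i s * B s x = ∑ s ∈ mons b,
        (P i 2 ^ (b - s.1) * (P i 0 ^ (2 * b + 1 - 2 * s.1 - s.2) * t i ^ s.2) * e' ^ s.1) *
        ((q : ℤ) ^ (d * s.1 + j * s.2) *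
          (((x.2 : ℕ).choose s.1 : ℤ) * a (x.1 : ℕ) (x.2 : ℕ) s.1 s.2)) := by
      rw [← Finset.sum_coe_sort (mons b)]
      rfl
    rw [e2, QD_sum_mons b (fun m k =>
      (P i 2 ^ (b - m) * (P i 0 ^ (2 * b + 1 - 2 * m - k) * t i ^ k) * e' ^ m) *
        ((q : ℤ) ^ (d * m + j * k) *
          (((x.2 : ℕ).choose m : ℤ) * a (x.1 : ℕ) (x.2 : ℕ) m k)))]
    refine sum_congr rfl fun m hm => ?_
    by_cases hml : m ≤ (x.2 : ℕ)
    · rw [ha _ _ _ hx1 hx2 hml, mul_sum]
      refine sum_congr rfl fun k hk => ?_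
      rw [he', mul_pow, mul_pow, pow_add, pow_mul, pow_mul]
      ring
    · have h0 : (x.2 : ℕ).choose m = 0 := Nat.choose_eq_zero_of_lt (by omega)
      simp [h0]
  have hdet : (A * B).det = (∏ i, (P i 0 ^ 2 + z * P i 1 ^ 2) ^ b) * (mat b P).det := by
    rw [hAB]
    exact Matrix.det_mul_column (fun i => (P i 0 ^ 2 + z * P i 1 ^ 2) ^ b) (mat b P)
  have hdvd : (q : ℤ) ^ (sig b d j T) ∣ (A * B).det := by
    refine h (Ix b) {s : ℕ × ℕ // s ∈ mons b} A B
      (fun s => (q : ℤ) ^ (d * s.1.1 + j * s.1.2)) _ ?_ ?_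
    · intro s i
      exact Dvd.intro _ rfl
    · intro f hf
      rw [prod_pow_eq_pow_sum]
      exact pow_dvd_pow _ (h' b d j T f hf)
  rw [hdet] at hdvd
  have hcop : IsCoprime ((q : ℤ) ^ (sig b d j T)) (∏ i, (P i 0 ^ 2 + z * P i 1 ^ 2) ^ b) := by
    apply IsCoprime.pow_left
    apply IsCoprime.prod_right
    intro i _
    apply IsCoprime.pow_right
    rw [hqp.coprime_iff_not_dvd]
    intro hd
    apply hg i
    have h1 : (q : ℤ) ∣ P i 0 ^ 2 := by
      have h2 : (q : ℤ) ∣ z * P i 1 ^ 2 := Dvd.dvd.mul_right hqz _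
      exact (dvd_add_left h2).1 hd
    exact hqp.dvd_of_dvd_pow h1
  exact hcop.dvd_of_dvd_mul_left hdvd

end Pool.Agent.helper27.TD
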