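import Pool.Agent.helper27.TD.Spec

set_option autoImplicit false

/-! MP_16912e_nt, row td:VAN (helper38): the determinant vanishes in a cell. -/

namespace Pool.Agent.helper27.TD

open Finset

/-- `2 ^ a ≤ r ≤ 2 * 2 ^ a` for `a = log r` -/
theorem VAN_log {r : ℝ} (hr : 0 < r) (a : ℤ) (h : Int.log 2 r = a) :
    (2 : ℝ) ^ a ≤ r ∧ r ≤ 2 * (2 : ℝ) ^ a := by
  subst h
  have h1 := Int.zpow_log_le_self (b := 2) (by norm_num) hr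
  have h2 := (Int.lt_zpow_succ_log_self (b := 2) (by norm_num) r).le
  rw [zpow_add_one₀ (by norm_num)] at h2
  push_cast at h1 h2
  exact ⟨h1, by linarith⟩

/-- a form `g + √z n` does not vanish if `g ^ 2 - z n ^ 2 ≠ 0` -/
theorem VAN_ne {z g n m : ℝ} (hz : 0 ≤ z) (h : g ^ 2 - z * n ^ 2 = m) (hm : m ≠ 0) :
    0 < |g + √z * n| := by
  rw [abs_pos]
  intro h0
  apply hm
  rw [← h]
  have h1 : g ^ 2 - z * n ^ 2 = (g + √z * n) * (g - √z * n) := by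
    have h2 : √z * √z = z := Real.mul_self_sqrt hz
    linear_combination n ^ 2 * h2
  rw [h1, h0, zero_mul]

/-- a prime dividing `z` does not divide `g` -/
theorem VAN_pdvd {q : ℕ} (hq : q.Prime) {z g n k w : ℤ} (hqz : (q : ℤ) ∣ z)
    (hW : g ^ 2 - z * n ^ 2 = -(k * w)) (hk : ¬ (q : ℤ) ∣ k) (hw : ¬ (q : ℤ) ∣ w) :
    ¬ (q : ℤ) ∣ g := by
  have hqp : Prime (q : ℤ) := Nat.prime_iff_prime_int.1 hq
  intro hg
  have h1 : (q : ℤ) ∣ k * w := by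
    have h2 : (q : ℤ) ∣ -(k * w) := by
      rw [← hW]
      exact dvd_sub (dvd_pow hg (by norm_num)) (Dvd.dvd.mul_right hqz _)
    exact (dvd_neg.1 h2)
  rcases hqp.dvd_or_dvd h1 with h3 | h3
  · exact hk h3
  · exact hw h3

/-- the final numerical step -/
theorem VAN_num (b d J s : ℕ) (hb : 1 ≤ b) (hN : 2 * (2 * d + 1) * (b + 1) +
    (2 + J) * ((b + 1) * (2 * b - 1)) ≤ 2 * s + 2 * (b + 1) ^ 2) (C : ℝ) (K Z X : ℕ)
    (hZ : 1 ≤ Z) (hX : 1 ≤ X) (hKX : K * X ≤ Z ^ (2 + J)) (hK : 1 ≤ K) (z : ℝ)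
    (hz : z ≤ 16 * (Z : ℝ) ^ 2) (hz' : (Z : ℝ) ^ 2 ≤ z) (hC : 0 ≤ C)
    (h : (Z : ℝ) ^ (2 * s) * z ^ ((b + 1) ^ 2) ≤
      C * z ^ ((2 * d + 1) * (b + 1)) * (X : ℝ) ^ ((b + 1) * (2 * b - 1))) :
    (K : ℝ) ≤ C * 16 ^ ((2 * d + 1) * (b + 1)) := by
  set N : ℕ := (b + 1) * (2 * b - 1) with hNdef
  have hN1 : N ≠ 0 := by
    rw [hNdef]
    exact Nat.mul_ne_zero (by omega) (by omega)
  have hZr : (1 : ℝ) ≤ Z := by exact_mod_cast hZ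
  have hXr : (1 : ℝ) ≤ X := by exact_mod_cast hX
  have hKr : (1 : ℝ) ≤ K := by exact_mod_cast hK
  have hz0 : 0 ≤ z := le_trans (by positivity) hz'
  have h1 : (Z : ℝ) ^ (2 * (2 * d + 1) * (b + 1)) * ((Z : ℝ) ^ (2 + J)) ^ N ≤
      (Z : ℝ) ^ (2 * s) * z ^ ((b + 1) ^ 2) := by
    calc (Z : ℝ) ^ (2 * (2 * d + 1) * (b + 1)) * ((Z : ℝ) ^ (2 + J)) ^ N
        = (Z : ℝ) ^ (2 * (2 * d + 1) * (b + 1) + (2 + J) * N) := by rw [← pow_mul, ← pow_add]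
      _ ≤ (Z : ℝ) ^ (2 * s + 2 * (b + 1) ^ 2) := pow_le_pow_right₀ hZr hN
      _ = (Z : ℝ) ^ (2 * s) * ((Z : ℝ) ^ 2) ^ ((b + 1) ^ 2) := by rw [← pow_mul, ← pow_add]
      _ ≤ (Z : ℝ) ^ (2 * s) * z ^ ((b + 1) ^ 2) := by
        apply mul_le_mul_of_nonneg_left _ (by positivity)
        exact pow_le_pow_left₀ (by positivity) hz' _
  have h2 : C * z ^ ((2 * d + 1) * (b + 1)) * (X : ℝ) ^ N ≤
      C * (16 ^ ((2 * d + 1) * (b + 1)) * (Z : ℝ) ^ (2 * (2 * d + 1) * (b + 1))) * (X : ℝ) ^ N := by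
    apply mul_le_mul_of_nonneg_right _ (by positivity)
    apply mul_le_mul_of_nonneg_left _ hC
    calc z ^ ((2 * d + 1) * (b + 1)) ≤ (16 * (Z : ℝ) ^ 2) ^ ((2 * d + 1) * (b + 1)) :=
          pow_le_pow_left₀ hz0 hz _
      _ = _ := by rw [mul_pow, ← pow_mul, ← mul_assoc 2]
  have h3 : ((K : ℝ) * X) ^ N ≤ ((Z : ℝ) ^ (2 + J)) ^ N := by
    apply pow_le_pow_left₀ (by positivity)
    exact_mod_cast hKX
  have h4 : (Z : ℝ) ^ (2 * (2 * d + 1) * (b + 1)) * ((K : ℝ) ^ N * (X : ℝ) ^ N) ≤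
      (Z : ℝ) ^ (2 * (2 * d + 1) * (b + 1)) *
        (C * 16 ^ ((2 * d + 1) * (b + 1)) * (X : ℝ) ^ N) := by
    rw [← mul_pow]
    calc (Z : ℝ) ^ (2 * (2 * d + 1) * (b + 1)) * ((K : ℝ) * X) ^ N
        ≤ (Z : ℝ) ^ (2 * (2 * d + 1) * (b + 1)) * ((Z : ℝ) ^ (2 + J)) ^ N :=
          mul_le_mul_of_nonneg_left h3 (by positivity)
      _ ≤ _ := h1
      _ ≤ _ := h
      _ ≤ _ := h2
      _ = _ := by ring
  have h5 := le_of_mul_le_mul_left h4 (by positivity)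
  have h6 := le_of_mul_le_mul_right h5 (by positivity)
  calc (K : ℝ) ≤ (K : ℝ) ^ N := le_self_pow₀ hKr hN1
    _ ≤ _ := h6

theorem VAN (h1 : UB_stmt) (h2 : KD_stmt) (h3 : QD_stmt) : VAN_stmt := by
  intro b d j₁ j₂ T₁ T₂ hb hd hNum
  obtain ⟨C, hC1, hC⟩ := h1 b
  -- the constants
  set C₂ : ℝ := C ^ 2 * 4 ^ (b + 1) * 4 ^ (b * (b + 1)) with hC₂
  have hC₂0 : 0 ≤ C₂ := by positivity
  set K : ℕ := ⌊C₂ * 16 ^ ((2 * d + 1) * (b + 1))⌋₊ + 1 with hK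
  refine ⟨K, by omega, ?_⟩
  intro Z X q₁ q₂ hZ hX hKX hq₁ hq₂ hne hZ₁ hZ₁' hZ₂ hZ₂' k c₁ c₂ a e l₁ l₂ hk₁ hk₂ hl₁ hl₂ D w x P hP
  by_contra hdet
  have hi0 : Nonempty (Ix b) := ⟨(0, 0)⟩
  obtain ⟨i0⟩ := hi0
  have hk0 : k ≠ 0 := (hP i0).1.k0
  set z : ℝ := (q₁ : ℝ) * q₂ with hz
  have hZr : (5 : ℝ) ≤ Z := by exact_mod_cast hZ
  have hXr : (1 : ℝ) ≤ X := by exact_mod_cast hX
  have hq₁r : (Z : ℝ) ≤ q₁ := by exact_mod_cast hZ₁.le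
  have hq₂r : (Z : ℝ) ≤ q₂ := by exact_mod_cast hZ₂.le
  have hq₁r' : (q₁ : ℝ) ≤ 4 * Z := by exact_mod_cast hZ₁'
  have hq₂r' : (q₂ : ℝ) ≤ 4 * Z := by exact_mod_cast hZ₂'
  have hz1 : (Z : ℝ) ^ 2 ≤ z := by
    rw [hz, sq]
    exact mul_le_mul hq₁r hq₂r (by positivity) (by positivity)
  have hz2 : z ≤ 16 * (Z : ℝ) ^ 2 := by
    rw [hz]
    calc (q₁ : ℝ) * q₂ ≤ (4 * Z) * (4 * Z) := mul_le_mul hq₁r' hq₂r' (by positivity) (by positivity)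
      _ = _ := by ring
  have hz0 : 0 < z := by nlinarith
  -- the size
  set W : ℝ := √(4 * z ^ (2 * d + 1) / X) with hW
  have hW2 : W ^ 2 = 4 * z ^ (2 * d + 1) / X := Real.sq_sqrt (by positivity)
  have hsize := hC z ((2 : ℝ) ^ a) ((2 : ℝ) ^ e) (|(k : ℝ)| * W) (2 * X * (k : ℝ) ^ 2) hz0
    (by positivity) (by positivity) (by positivity) (by positivity) P (by
      intro i
      obtain ⟨hT, hD1, hD2, -, -, -, -, ha, he⟩ := hP i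
      have hWr : (P i 0 : ℝ) ^ 2 - z * (P i 1 : ℝ) ^ 2 = -((k : ℝ) * w i) := by
        have := hT.hW
        rw [hz]
        exact_mod_cast this
      have hNr : (P i 2 : ℝ) ^ 2 - z * (P i 3 : ℝ) ^ 2 = (D i : ℝ) * (k : ℝ) ^ 2 := by
        have := hT.hN
        rw [hz]
        exact_mod_cast this
      have hkr : (k : ℝ) ≠ 0 := by exact_mod_cast hk0
      have hwr : (w i : ℝ) ≠ 0 := by exact_mod_cast hT.w0
      have hD0 : (D i : ℝ) ≠ 0 := by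
        have h5 : D i ≠ 0 := by
          intro h6
          rw [h6] at hD1
          simp at hD1
          omega
        exact_mod_cast h5
      have e1 := VAN_log (VAN_ne hz0.le hWr (neg_ne_zero.2 (mul_ne_zero hkr hwr))) a ha
      have e2 := VAN_log (VAN_ne hz0.le hNr (mul_ne_zero hD0 (pow_ne_zero 2 hkr))) e he
      have hDr1 : (X : ℝ) < |(D i : ℝ)| := by exact_mod_cast hD1
      have hDr2 : |(D i : ℝ)| ≤ 2 * X := by exact_mod_cast hD2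
      refine ⟨⟨e1.1, e1.2, ?_⟩, ⟨e2.1, e2.2, ?_⟩⟩
      · rw [hWr, abs_neg, abs_mul]
        apply mul_le_mul_of_nonneg_left _ (abs_nonneg _)
        apply Real.abs_le_sqrt
        rw [le_div_iff₀ (by positivity)]
        have hbw : |(D i : ℝ)| * (w i : ℝ) ^ 2 ≤ 4 * z ^ (2 * d + 1) := by
          have := hT.bw
          rw [hz]
          exact_mod_cast this
        nlinarith [sq_nonneg (w i : ℝ)]
      · rw [hNr, abs_mul, abs_of_nonneg (sq_nonneg (k : ℝ))]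
        exact mul_le_mul_of_nonneg_right hDr2 (sq_nonneg _))
  -- the divisibility
  have hdK : (k.natAbs : ℤ) ^ ((b + 1) * (2 * b + 1)) ∣ (mat b P).det :=
    h2 b k.natAbs l₁ l₂ hl₁ hl₂ P (fun i => ⟨(hP i).2.2.2.1, (hP i).2.2.2.2.1⟩)
  have hd₁ : (q₁ : ℤ) ^ (sig b d j₁ T₁) ∣ (mat b P).det := by
    refine h3 b d j₁ T₁ q₁ ((q₁ : ℤ) * q₂) (2 * ((q₁ : ℤ) * q₂) ^ d * k ^ 2) c₁ hq₁
      (Dvd.intro _ rfl) ?_ P ?_
    · rw [mul_pow]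
      exact ⟨2 * (q₂ : ℤ) ^ d * k ^ 2, by ring⟩
    · intro i
      obtain ⟨hT, -, -, -, -, hc₁, -, -, -⟩ := hP i
      exact ⟨VAN_pdvd hq₁ (Dvd.intro _ rfl) hT.hW hk₁ hT.hw₁, hc₁, hT.hE⟩
  have hd₂ : (q₂ : ℤ) ^ (sig b d j₂ T₂) ∣ (mat b P).det := by
    refine h3 b d j₂ T₂ q₂ ((q₁ : ℤ) * q₂) (2 * ((q₁ : ℤ) * q₂) ^ d * k ^ 2) c₂ hq₂
      (Dvd.intro_left _ rfl) ?_ P ?_
    · rw [mul_pow]
      exact ⟨2 * (q₁ : ℤ) ^ d * k ^ 2, by ring⟩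
    · intro i
      obtain ⟨hT, -, -, -, -, -, hc₂, -, -⟩ := hP i
      exact ⟨VAN_pdvd hq₂ (Dvd.intro_left _ rfl) hT.hW hk₂ hT.hw₂, hc₂, hT.hE⟩
  have hq₁p : Prime (q₁ : ℤ) := Nat.prime_iff_prime_int.1 hq₁
  have hq₂p : Prime (q₂ : ℤ) := Nat.prime_iff_prime_int.1 hq₂
  have hcop1 : IsCoprime ((k.natAbs : ℤ) ^ ((b + 1) * (2 * b + 1))) ((q₁ : ℤ) ^ (sig b d j₁ T₁)) := by
    apply IsCoprime.pow
    apply IsCoprime.symm
    rw [hq₁p.coprime_iff_not_dvd]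
    intro h5
    exact hk₁ (Int.dvd_natAbs.1 h5)
  have hcop2 : IsCoprime ((k.natAbs : ℤ) ^ ((b + 1) * (2 * b + 1))) ((q₂ : ℤ) ^ (sig b d j₂ T₂)) := by
    apply IsCoprime.pow
    apply IsCoprime.symm
    rw [hq₂p.coprime_iff_not_dvd]
    intro h5
    exact hk₂ (Int.dvd_natAbs.1 h5)
  have hcop3 : IsCoprime ((q₁ : ℤ) ^ (sig b d j₁ T₁)) ((q₂ : ℤ) ^ (sig b d j₂ T₂)) := by
    apply IsCoprime.pow
    rw [Nat.isCoprime_iff_coprime]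
    exact (Nat.coprime_primes hq₁ hq₂).2 hne
  have hdvd : (k.natAbs : ℤ) ^ ((b + 1) * (2 * b + 1)) * (q₁ : ℤ) ^ (sig b d j₁ T₁) *
      (q₂ : ℤ) ^ (sig b d j₂ T₂) ∣ (mat b P).det :=
    (IsCoprime.mul_left hcop2 hcop3).mul_dvd (hcop1.mul_dvd hdK hd₁) hd₂
  have hle := Int.le_of_dvd (abs_pos.2 hdet) ((dvd_abs _ _).2 hdvd)
  have hler : |(k : ℝ)| ^ ((b + 1) * (2 * b + 1)) * (q₁ : ℝ) ^ (sig b d j₁ T₁) *
      (q₂ : ℝ) ^ (sig b d j₂ T₂) ≤ |((mat b P).det : ℝ)| := by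
    have h5 : (((k.natAbs : ℤ) ^ ((b + 1) * (2 * b + 1)) * (q₁ : ℤ) ^ (sig b d j₁ T₁) *
      (q₂ : ℤ) ^ (sig b d j₂ T₂) : ℤ) : ℝ) ≤ ((|(mat b P).det| : ℤ) : ℝ) := by exact_mod_cast hle
    have h6 : ((k.natAbs : ℤ) : ℝ) = |(k : ℝ)| := by
      rw [Int.natCast_natAbs]
      push_cast
      rfl
    push_cast at h5
    rw [← h6]
    push_cast
    exact h5
  -- squares
  have hsq : (|((mat b P).det : ℝ)| * √z ^ ((b + 1) ^ 2)) ^ 2 ≤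
      (C * (|(k : ℝ)| * W) ^ (b + 1) * (2 * X * (k : ℝ) ^ 2) ^ (b * (b + 1))) ^ 2 :=
    pow_le_pow_left₀ (by positivity) hsize 2
  have hkabs : |(k : ℝ)| ^ 2 = (k : ℝ) ^ 2 := sq_abs _
  set N : ℕ := (b + 1) * (2 * b - 1) with hN
  have hXN : (X : ℝ) ^ (2 * (b * (b + 1))) = (X : ℝ) ^ (b + 1) * (X : ℝ) ^ N := by
    rw [← pow_add]
    congr 1
    obtain ⟨b', rfl⟩ : ∃ b', b = b' + 1 := ⟨b - 1, by omega⟩
    have : 2 * (b' + 1) - 1 = 2 * b' + 1 := by omega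
    rw [hN, this]
    ring
  have hright : (C * (|(k : ℝ)| * W) ^ (b + 1) * (2 * X * (k : ℝ) ^ 2) ^ (b * (b + 1))) ^ 2 =
      (|(k : ℝ)| ^ ((b + 1) * (2 * b + 1))) ^ 2 *
        (C₂ * z ^ ((2 * d + 1) * (b + 1)) * (X : ℝ) ^ N) := by
    have hk4 : (k : ℝ) ^ 2 = |(k : ℝ)| ^ 2 := hkabs.symm
    have e1 : (C * (|(k : ℝ)| * W) ^ (b + 1) * (2 * X * (k : ℝ) ^ 2) ^ (b * (b + 1))) ^ 2 =
        C ^ 2 * (|(k : ℝ)| ^ 2) ^ (b + 1) * (W ^ 2) ^ (b + 1) *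
          (4 ^ (b * (b + 1)) * (X : ℝ) ^ (2 * (b * (b + 1))) *
            (|(k : ℝ)| ^ 2) ^ (2 * (b * (b + 1)))) := by
      rw [hk4]
      have e2 : (4 : ℝ) ^ (b * (b + 1)) = (2 ^ (b * (b + 1))) ^ 2 := by
        rw [show (4 : ℝ) = 2 ^ 2 by norm_num, ← pow_mul, ← pow_mul, mul_comm 2]
      have e3 : (X : ℝ) ^ (2 * (b * (b + 1))) = ((X : ℝ) ^ (b * (b + 1))) ^ 2 := by
        rw [← pow_mul, mul_comm _ 2]
      have e4 : (|(k : ℝ)| ^ 2) ^ (2 * (b * (b + 1))) =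
          ((|(k : ℝ)| ^ 2) ^ (b * (b + 1))) ^ 2 := by
        rw [← pow_mul (|(k : ℝ)| ^ 2) (b * (b + 1)) 2, mul_comm _ 2]
      have e5 : (|(k : ℝ)| ^ 2) ^ (b + 1) = (|(k : ℝ)| ^ (b + 1)) ^ 2 := by
        rw [← pow_mul, ← pow_mul, mul_comm]
      have e6 : (W ^ 2) ^ (b + 1) = (W ^ (b + 1)) ^ 2 := by
        rw [← pow_mul, ← pow_mul, mul_comm]
      rw [e2, e3, e4, e5, e6, mul_pow |(k : ℝ)| W, mul_pow (2 * (X : ℝ)), mul_pow (2 : ℝ) (X : ℝ)]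
      ring
    rw [e1, hW2, hXN]
    have e7 : (4 * z ^ (2 * d + 1) / (X : ℝ)) ^ (b + 1) =
        4 ^ (b + 1) * z ^ ((2 * d + 1) * (b + 1)) / (X : ℝ) ^ (b + 1) := by
      rw [div_pow, mul_pow, ← pow_mul]
    rw [e7]
    have e8 : (|(k : ℝ)| ^ 2) ^ (b + 1) * (|(k : ℝ)| ^ 2) ^ (2 * (b * (b + 1))) =
        (|(k : ℝ)| ^ ((b + 1) * (2 * b + 1))) ^ 2 := by
      rw [← pow_add, ← pow_mul, ← pow_mul]
      congr 1
      ring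
    rw [← e8, hC₂]
    have hX0 : (X : ℝ) ^ (b + 1) ≠ 0 := by positivity
    field_simp
  have hleft : (|(k : ℝ)| ^ ((b + 1) * (2 * b + 1))) ^ 2 *
      ((Z : ℝ) ^ (2 * (sig b d j₁ T₁ + sig b d j₂ T₂)) * z ^ ((b + 1) ^ 2)) ≤
      (|((mat b P).det : ℝ)| * √z ^ ((b + 1) ^ 2)) ^ 2 := by
    have e1 : (|((mat b P).det : ℝ)| * √z ^ ((b + 1) ^ 2)) ^ 2 =
        |((mat b P).det : ℝ)| ^ 2 * z ^ ((b + 1) ^ 2) := by
      rw [mul_pow, ← pow_mul, mul_comm _ 2, pow_mul, Real.sq_sqrt hz0.le]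
    rw [e1, ← mul_assoc]
    apply mul_le_mul_of_nonneg_right _ (by positivity)
    calc (|(k : ℝ)| ^ ((b + 1) * (2 * b + 1))) ^ 2 *
          (Z : ℝ) ^ (2 * (sig b d j₁ T₁ + sig b d j₂ T₂))
        = (|(k : ℝ)| ^ ((b + 1) * (2 * b + 1)) * (Z : ℝ) ^ (sig b d j₁ T₁) *
            (Z : ℝ) ^ (sig b d j₂ T₂)) ^ 2 := by
          rw [mul_assoc, ← pow_add, mul_pow, ← pow_mul (Z : ℝ),
            show (sig b d j₁ T₁ + sig b d j₂ T₂) * 2 = 2 * (sig b d j₁ T₁ + sig b d j₂ T₂) by ring]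
      _ ≤ (|(k : ℝ)| ^ ((b + 1) * (2 * b + 1)) * (q₁ : ℝ) ^ (sig b d j₁ T₁) *
            (q₂ : ℝ) ^ (sig b d j₂ T₂)) ^ 2 := by
          apply pow_le_pow_left₀ (by positivity)
          apply mul_le_mul
          · apply mul_le_mul_of_nonneg_left _ (by positivity)
            exact pow_le_pow_left₀ (by positivity) hq₁r _
          · exact pow_le_pow_left₀ (by positivity) hq₂r _
          · positivity
          · positivity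
      _ ≤ _ := pow_le_pow_left₀ (by positivity) hler 2
  have hfin := hleft.trans (hsq.trans_eq hright)
  have hkp : 0 < (|(k : ℝ)| ^ ((b + 1) * (2 * b + 1))) ^ 2 := by
    have : (k : ℝ) ≠ 0 := by exact_mod_cast hk0
    positivity
  have hfin2 := le_of_mul_le_mul_left hfin hkp
  have hNum' : 2 * (2 * d + 1) * (b + 1) + (2 + (j₁ + j₂)) * ((b + 1) * (2 * b - 1)) ≤
      2 * (sig b d j₁ T₁ + sig b d j₂ T₂) + 2 * (b + 1) ^ 2 := by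
    have := hNum
    unfold Num at this
    rw [← add_assoc]
    exact this
  have hfin3 := VAN_num b d (j₁ + j₂) _ hb hNum' C₂ K Z X (by omega) hX
    (by rw [← add_assoc]; exact hKX) (by omega) z hz2 hz1 hC₂0 hfin2
  have hKgt : C₂ * 16 ^ ((2 * d + 1) * (b + 1)) < (K : ℝ) := by
    rw [hK]
    push_cast
    exact Nat.lt_floor_add_one _
  linarith

end Pool.Agent.helper27.TD
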